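import Pool.Agent.QSN.StmtsB2
import Pool.Agent.Helper10_QSX.CLE

/-!
# Squad QSN, row LGC: the class condition and the logarithm
-/

set_option autoImplicit false

namespace Pool.Agent.QSN.H34

open Matrix Finset Pool.Agent.QSX Filter Topology

theorem lgc : LgcStmt := by
  intro S V m P B
  constructor
  · intro g hg cg
    have hx : ∀ (s : ℕ) (_ : V), SU (g s - 1) := fun s _ => hg s
    have cx : S.Cls P B (fun s _ => g s - 1) := by
      intro ε hε
      filter_upwards [cg ε hε] with s h1
      intro a ha i l hil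
      rw [Matrix.sub_apply, Matrix.one_apply_ne hil.ne, sub_zero]
      exact h1 a ha i l hil
    show S.Cls P B (fun s _ => mlog (g s))
    refine QSX.H10.cls_absorb ((m : ℝ) + 1) fun ε hε => ?_
    have hall : ∀ᶠ s in (S.ω : Filter ℕ), ∀ k ∈ range (m + 1), ∀ a ∈ B, ∀ i l, i < l →
        |((g s - 1) ^ k) i l| ≤ Real.exp (S.R s * (P a i - P a l + ε)) := by
      rw [Filter.eventually_all_finset]
      intro k _
      cases k with
      | zero =>
        refine Filter.Eventually.of_forall fun s a _ i l hil => ?_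
        rw [pow_zero, Matrix.one_apply_ne hil.ne, abs_zero]
        exact (Real.exp_pos _).le
      | succ k => exact QSX.H10.cls_pow hx cx k ε hε
    filter_upwards [hall] with s h1
    intro a ha i l hil
    show |mlog (g s) i l| ≤ _
    rw [mlog, Matrix.sum_apply]
    refine (Finset.abs_sum_le_sum_abs _ _).trans ?_
    have key : ∀ k ∈ range (m + 1), |(((-1 : ℝ) ^ (k + 1) / (k : ℝ)) • (g s - 1) ^ k) i l| ≤
        Real.exp (S.R s * (P a i - P a l + ε)) := by
      intro k hk
      rw [Matrix.smul_apply, smul_eq_mul, abs_mul]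
      have h2 : |(-1 : ℝ) ^ (k + 1) / (k : ℝ)| ≤ 1 := by
        rw [abs_div, abs_pow, abs_neg, abs_one, one_pow]
        rcases Nat.eq_zero_or_pos k with h | h
        · subst h
          simp
        · rw [abs_of_nonneg (by positivity : (0 : ℝ) ≤ (k : ℝ)), one_div]
          exact inv_le_one_of_one_le₀ (by exact_mod_cast h)
      calc |(-1 : ℝ) ^ (k + 1) / (k : ℝ)| * |((g s - 1) ^ k) i l| ≤
            1 * |((g s - 1) ^ k) i l| := mul_le_mul_of_nonneg_right h2 (abs_nonneg _)
        _ = |((g s - 1) ^ k) i l| := one_mul _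
        _ ≤ _ := h1 k hk a ha i l hil
    calc ∑ k ∈ range (m + 1), |(((-1 : ℝ) ^ (k + 1) / (k : ℝ)) • (g s - 1) ^ k) i l|
        ≤ ∑ _k ∈ range (m + 1), Real.exp (S.R s * (P a i - P a l + ε)) := Finset.sum_le_sum key
      _ = ((m : ℝ) + 1) * Real.exp (S.R s * (P a i - P a l + ε)) := by
          rw [Finset.sum_const, Finset.card_range, nsmul_eq_mul]; push_cast; ring
  · intro x hx cx
    exact QSX.H10.cle S V m P B (fun s _ => x s) (fun s _ => hx s) cx

end Pool.Agent.QSN.H34
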