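import Pool.Agent.QSN.StmtsE

/-!
# Squad QSN, row PRA: products of targets with abelian root spaces
-/

set_option autoImplicit false

namespace Pool.Agent.QSN.H34

open Matrix Finset Pool.Agent.QSX

/-- the inclusion of the first factor -/
def inL (Y₁ Y₂ : Dat) : Y₁.b →ₗ[ℝ] (Y₁.prod Y₂).b where
  toFun c := ⟨Fin.append (c : Fin Y₁.m → ℝ) (0 : Fin Y₂.m → ℝ), by
    constructor
    · have h : LinearMap.funLeft ℝ ℝ (Fin.castAdd Y₂.m)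
          (Fin.append (c : Fin Y₁.m → ℝ) (0 : Fin Y₂.m → ℝ)) = (c : Fin Y₁.m → ℝ) := by
        funext i
        rw [LinearMap.funLeft_apply, Fin.append_left]
      show LinearMap.funLeft ℝ ℝ (Fin.castAdd Y₂.m)
          (Fin.append (c : Fin Y₁.m → ℝ) (0 : Fin Y₂.m → ℝ)) ∈ Y₁.b
      rw [h]
      exact c.2
    · have h : LinearMap.funLeft ℝ ℝ (Fin.natAdd Y₁.m)
          (Fin.append (c : Fin Y₁.m → ℝ) (0 : Fin Y₂.m → ℝ)) = (0 : Fin Y₂.m → ℝ) := by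
        funext i
        rw [LinearMap.funLeft_apply, Fin.append_right]
      show LinearMap.funLeft ℝ ℝ (Fin.natAdd Y₁.m)
          (Fin.append (c : Fin Y₁.m → ℝ) (0 : Fin Y₂.m → ℝ)) ∈ Y₂.b
      rw [h]
      exact Y₂.b.zero_mem⟩
  map_add' c c' := by
    apply Subtype.ext
    show Fin.append ((c : Fin Y₁.m → ℝ) + (c' : Fin Y₁.m → ℝ)) (0 : Fin Y₂.m → ℝ) =
      Fin.append (c : Fin Y₁.m → ℝ) (0 : Fin Y₂.m → ℝ) +
        Fin.append (c' : Fin Y₁.m → ℝ) (0 : Fin Y₂.m → ℝ)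
    funext i
    refine Fin.addCases (fun i => ?_) (fun i => ?_) i
    · rw [Pi.add_apply, Fin.append_left, Fin.append_left, Fin.append_left, Pi.add_apply]
    · rw [Pi.add_apply, Fin.append_right, Fin.append_right, Fin.append_right, Pi.zero_apply,
        add_zero]
  map_smul' r c := by
    apply Subtype.ext
    show Fin.append (r • (c : Fin Y₁.m → ℝ)) (0 : Fin Y₂.m → ℝ) =
      r • Fin.append (c : Fin Y₁.m → ℝ) (0 : Fin Y₂.m → ℝ)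
    funext i
    refine Fin.addCases (fun i => ?_) (fun i => ?_) i
    · rw [Pi.smul_apply, Fin.append_left, Fin.append_left, Pi.smul_apply]
    · rw [Pi.smul_apply, Fin.append_right, Fin.append_right, Pi.zero_apply, smul_zero]

/-- the inclusion of the second factor -/
def inR (Y₁ Y₂ : Dat) : Y₂.b →ₗ[ℝ] (Y₁.prod Y₂).b where
  toFun c := ⟨Fin.append (0 : Fin Y₁.m → ℝ) (c : Fin Y₂.m → ℝ), by
    constructor
    · have h : LinearMap.funLeft ℝ ℝ (Fin.castAdd Y₂.m)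
          (Fin.append (0 : Fin Y₁.m → ℝ) (c : Fin Y₂.m → ℝ)) = (0 : Fin Y₁.m → ℝ) := by
        funext i
        rw [LinearMap.funLeft_apply, Fin.append_left]
      show LinearMap.funLeft ℝ ℝ (Fin.castAdd Y₂.m)
          (Fin.append (0 : Fin Y₁.m → ℝ) (c : Fin Y₂.m → ℝ)) ∈ Y₁.b
      rw [h]
      exact Y₁.b.zero_mem
    · have h : LinearMap.funLeft ℝ ℝ (Fin.natAdd Y₁.m)
          (Fin.append (0 : Fin Y₁.m → ℝ) (c : Fin Y₂.m → ℝ)) = (c : Fin Y₂.m → ℝ) := by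
        funext i
        rw [LinearMap.funLeft_apply, Fin.append_right]
      show LinearMap.funLeft ℝ ℝ (Fin.natAdd Y₁.m)
          (Fin.append (0 : Fin Y₁.m → ℝ) (c : Fin Y₂.m → ℝ)) ∈ Y₂.b
      rw [h]
      exact c.2⟩
  map_add' c c' := by
    apply Subtype.ext
    show Fin.append (0 : Fin Y₁.m → ℝ) ((c : Fin Y₂.m → ℝ) + (c' : Fin Y₂.m → ℝ)) =
      Fin.append (0 : Fin Y₁.m → ℝ) (c : Fin Y₂.m → ℝ) +
        Fin.append (0 : Fin Y₁.m → ℝ) (c' : Fin Y₂.m → ℝ)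
    funext i
    refine Fin.addCases (fun i => ?_) (fun i => ?_) i
    · rw [Pi.add_apply, Fin.append_left, Fin.append_left, Fin.append_left, Pi.zero_apply,
        add_zero]
    · rw [Pi.add_apply, Fin.append_right, Fin.append_right, Fin.append_right, Pi.add_apply]
  map_smul' r c := by
    apply Subtype.ext
    show Fin.append (0 : Fin Y₁.m → ℝ) (r • (c : Fin Y₂.m → ℝ)) =
      r • Fin.append (0 : Fin Y₁.m → ℝ) (c : Fin Y₂.m → ℝ)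
    funext i
    refine Fin.addCases (fun i => ?_) (fun i => ?_) i
    · rw [Pi.smul_apply, Fin.append_left, Fin.append_left, Pi.zero_apply, smul_zero]
    · rw [Pi.smul_apply, Fin.append_right, Fin.append_right, Pi.smul_apply]

theorem wt_L {Y₁ Y₂ : Dat} (ρ : (Y₁.prod Y₂).b →ₗ[ℝ] ℝ) (x₁ : Matrix (Fin Y₁.m) (Fin Y₁.m) ℝ)
    (x₂ : Matrix (Fin Y₂.m) (Fin Y₂.m) ℝ)
    (w : ∀ (c : Fin (Y₁.m + Y₂.m) → ℝ) (hc : c ∈ (Y₁.prod Y₂).b), diagonal c * bd x₁ x₂ -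
      bd x₁ x₂ * diagonal c = ρ ⟨c, hc⟩ • bd x₁ x₂) (c : Y₁.b) :
    diagonal (c : Fin Y₁.m → ℝ) * x₁ - x₁ * diagonal (c : Fin Y₁.m → ℝ) =
      (ρ.comp (inL Y₁ Y₂)) c • x₁ := by
  have h : diagonal (Fin.append (c : Fin Y₁.m → ℝ) (0 : Fin Y₂.m → ℝ)) * bd x₁ x₂ -
      bd x₁ x₂ * diagonal (Fin.append (c : Fin Y₁.m → ℝ) (0 : Fin Y₂.m → ℝ)) =
      ρ (inL Y₁ Y₂ c) • bd x₁ x₂ := w _ (inL Y₁ Y₂ c).2
  rw [← bd_diagonal, bd_mul, bd_mul, bd_sub, bd_smul] at h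
  exact (bd_inj h).1

theorem wt_R {Y₁ Y₂ : Dat} (ρ : (Y₁.prod Y₂).b →ₗ[ℝ] ℝ) (x₁ : Matrix (Fin Y₁.m) (Fin Y₁.m) ℝ)
    (x₂ : Matrix (Fin Y₂.m) (Fin Y₂.m) ℝ)
    (w : ∀ (c : Fin (Y₁.m + Y₂.m) → ℝ) (hc : c ∈ (Y₁.prod Y₂).b), diagonal c * bd x₁ x₂ -
      bd x₁ x₂ * diagonal c = ρ ⟨c, hc⟩ • bd x₁ x₂) (c : Y₂.b) :
    diagonal (c : Fin Y₂.m → ℝ) * x₂ - x₂ * diagonal (c : Fin Y₂.m → ℝ) =
      (ρ.comp (inR Y₁ Y₂)) c • x₂ := by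
  have h : diagonal (Fin.append (0 : Fin Y₁.m → ℝ) (c : Fin Y₂.m → ℝ)) * bd x₁ x₂ -
      bd x₁ x₂ * diagonal (Fin.append (0 : Fin Y₁.m → ℝ) (c : Fin Y₂.m → ℝ)) =
      ρ (inR Y₁ Y₂ c) • bd x₁ x₂ := w _ (inR Y₁ Y₂ c).2
  rw [← bd_diagonal, bd_mul, bd_mul, bd_sub, bd_smul] at h
  exact (bd_inj h).2

theorem pra : PraStmt := by
  intro Y₁ Y₂ h1 h2 ρ x hx y hy wx wy
  obtain ⟨x₁, hx₁, x₂, hx₂, rfl⟩ := hx
  obtain ⟨y₁, hy₁, y₂, hy₂, rfl⟩ := hy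
  have e1 := h1 (ρ.comp (inL Y₁ Y₂)) x₁ hx₁ y₁ hy₁ (wt_L ρ x₁ x₂ fun c hc => wx ⟨c, hc⟩)
    (wt_L ρ y₁ y₂ fun c hc => wy ⟨c, hc⟩)
  have e2 := h2 (ρ.comp (inR Y₁ Y₂)) x₂ hx₂ y₂ hy₂ (wt_R ρ x₁ x₂ fun c hc => wx ⟨c, hc⟩)
    (wt_R ρ y₁ y₂ fun c hc => wy ⟨c, hc⟩)
  show bd x₁ x₂ * bd y₁ y₂ - bd y₁ y₂ * bd x₁ x₂ = 0
  rw [bd_mul, bd_mul, bd_sub, e1, e2, bd_zero]

end Pool.Agent.QSN.H34
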