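import Pool.Agent.QSN.StmtsB2

/-!
# Squad QSN, row VGQ: assembly of part B
-/

set_option autoImplicit false

namespace Pool.Agent.QSN.H34

open Matrix Finset Pool.Agent.QSX Filter Topology

theorem ue_mem_Gam {X : Dat} (hX : MS X) (l : hX.ι) (x : ℚ) :
    ue ((x : ℝ) • hX.e l) ∈ hX.Gam := Subgroup.subset_closure ⟨l, x, rfl⟩

theorem w_mem_Gam (cen : CenStmt) {X : Dat} (hX : MS X) (H : Grd hX) (k : Fin H.D) :
    ue (H.w k) ∈ hX.Gam := by
  have h1 := (cen X hX H).2.1 k 1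
  have hl := ue_mem_Gam hX (H.l k) 1
  have hm := ue_mem_Gam hX (H.m k) 1
  rw [Rat.cast_one, one_smul] at hl hm
  rw [one_smul, one_smul] at h1
  rw [← h1]
  exact hX.Gam.mul_mem (hX.Gam.mul_mem (hX.Gam.mul_mem hl hm) (hX.Gam.inv_mem hl))
    (hX.Gam.inv_mem hm)

theorem vgq (bas : BasStmt) (flq : FlqStmt) (vrq : VrqStmt) (gaq : GaqStmt) (aqm : AqmStmt)
    (brm : BrmStmt) (cen : CenStmt) (inq : InqStmt) (toq : ToqStmt) : VgqStmt := by
  intro X Y hX E _ _ f hf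
  obtain ⟨H⟩ := bas X hX
  obtain ⟨A⟩ := gaq X Y hX H (vrq X Y hX H (flq X Y hX H E f hf))
  obtain ⟨A', hA'⟩ := aqm X Y hX H A
  refine ⟨A.S, A.P, A'.C, A.Pb, brm X Y hX A.S.FF A.P A', toq X Y hX H A.S.FF A.P A' ?_⟩
  intro j v hv h
  refine inq X Y hX H A j v hv ?_
  rw [← h]
  refine Finset.sum_congr rfl fun k _ => ?_
  rw [hA' 1 hX.Gam.one_mem (ue (H.w k)) (w_mem_Gam cen hX H k)]
  rfl

end Pool.Agent.QSN.H34
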