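import Pool.Agent.QSN.StmtsB
import Pool.Agent.Helper68_QSX.VRT
import Pool.Agent.Helper22_QSX.ENT
import Pool.Agent.Helper24_QSX.CLG
import Pool.Agent.Helper28_QSX.LGM
import Pool.Agent.Helper50_QSX.ENU
import Pool.Agent.Helper86_QSX.LEN
import Pool.Agent.Helper80_QSX.NRM

/-!
# Squad QSN, row VRQ
-/

set_option autoImplicit false

namespace Pool.Agent.QSN.H34

open Matrix Finset Pool.Agent.QSX Filter Topology

theorem entp : EntStmt := Pool.Agent.QSX.H22.ent (Pool.Agent.QSX.H86.len Pool.Agent.QSX.H80.nrm)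

theorem enup : EnuStmt := Pool.Agent.QSX.H50.enu
  (Pool.Agent.QSX.H86.len Pool.Agent.QSX.H80.nrm) Pool.Agent.QSX.H80.nrm

section

variable {X Y : Dat} {hX : MS X} {H : Grd hX} (V : FltQ X Y hX H)

theorem ev_del (ε : ℝ) (hε : 0 < ε) : ∀ᶠ s in (V.S.ω : Filter ℕ), V.δ s ≤ ε := by
  have h := V.δ0.eventually (ge_mem_nhds hε)
  exact h

/-- two flats: the class condition where the length is bounded -/
theorem flat_cls (n n' : ℕ → UX X) (hn : V.Good n) (hn' : V.Good n') (B : Set X.b)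
    (hB : ∀ a ∈ B, ‖a‖ ≤ 1) (C' : ℝ)
    (hlen : ∀ᶠ s in (V.S.ω : Filter ℕ), ∀ a ∈ B,
      len ((Y.mat (V.F (n s) s a))⁻¹ * Y.mat (V.F (n' s) s a)) ≤ C') :
    V.S.Cls V.P B (fun s a =>
      (((ue ((V.F (n s) s a).1 : Matrix (Fin Y.m) (Fin Y.m) ℝ))⁻¹ *
        ue ((V.F (n' s) s a).1 : Matrix (Fin Y.m) (Fin Y.m) ℝ) :
        (Matrix (Fin Y.m) (Fin Y.m) ℝ)ˣ) : Matrix _ _ ℝ)) := by
  intro ε hε
  filter_upwards [hn, hn', hlen, ev_del V (ε / 4) (by positivity),
    V.S.ev_R (2 / ε * C')] with s h1 h1' h3 h4 h2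
  intro a ha i l hil
  refine (entp Y (V.F (n s) s a) (V.F (n' s) s a) i l).trans (Real.exp_le_exp.mpr ?_)
  have h3' := h3 a ha
  have h5 := abs_le.mp (V.aff s (n s) h1 a (hB a ha) i)
  have h6 := abs_le.mp (V.aff s (n' s) h1' a (hB a ha) l)
  have hR := V.one_le s
  have h10 : C' ≤ ε / 2 * V.S.R s := by
    have := mul_le_mul_of_nonneg_left h2 (by positivity : (0 : ℝ) ≤ ε / 2)
    calc C' = ε / 2 * (2 / ε * C') := by field_simp
      _ ≤ _ := this
  have h11 : V.δ s * V.S.R s ≤ ε / 4 * V.S.R s :=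
    mul_le_mul_of_nonneg_right h4 (by linarith)
  have h12 : V.S.R s * (V.P a i - V.P a l + ε) =
      V.S.R s * V.P a i - V.S.R s * V.P a l + ε * V.S.R s := by ring
  rw [h12]
  linarith [h5.2, h6.1]

end

theorem vrq (nvp : NvpStmt) (cnq : CnqStmt) (clq : ClqStmt) : VrqStmt := by
  rintro X Y hX H ⟨V⟩
  obtain ⟨ψ, hψn, hψ⟩ := nvp X Y hX H V
  have hψn0 := hψn
  choose y hy hy' using hψn0
  have hFsu : ∀ (n : ℕ → UX X) (s : ℕ) (a : X.b),
      SU ((V.F (n s) s a).1 : Matrix (Fin Y.m) (Fin Y.m) ℝ) :=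
    fun n s a => Y.su _ (V.F (n s) s a).1.2
  have hcl : ∀ n : ℕ → UX X, V.Good n → V.S.Cls V.P {a : X.b | ‖a‖ ≤ 1} (fun s a =>
      (((ue ((V.F (n s) s a).1 : Matrix (Fin Y.m) (Fin Y.m) ℝ))⁻¹ * ue (y s (n s)) :
        (Matrix (Fin Y.m) (Fin Y.m) ℝ)ˣ) : Matrix _ _ ℝ)) := by
    intro n hn
    have h := hψ n hn
    simp only [hy'] at h
    exact h
  refine ⟨⟨V.toBas, ψ, hψn, ?_, ?_⟩⟩
  · intro n n' hn hn' Ψ z K t ht hz
    obtain ⟨Kq, hKq, hcn⟩ := cnq X hX
    have h1 := flat_cls V n n' hn hn' ({a | ‖a‖ ≤ 1} ∩ {a | ∀ ν ∈ Ψ, -t ≤ hX.rt ν a})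
      (fun a ha => ha.1) (V.L * (Kq * (Real.log (1 + Kq * |K|) + 1)) + V.C) (by
        filter_upwards [hn, hn', hz] with s g1 g2 g3
        intro a ha
        obtain ⟨g4, g5, g6⟩ := g3
        have hR := V.one_le s
        refine (V.up s (n s) g1 (n' s) g2 a).trans ?_
        have g7 : (n s)⁻¹ * n' s = ue (z s) := by rw [g6]; group
        rw [g7]
        have g8 := hcn Ψ (z s) g4 (|K| * Real.exp (-(t * V.S.R s))) (by positivity)
          (fun i j => (g5 i j).trans (mul_le_mul_of_nonneg_right (le_abs_self K)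
            (Real.exp_pos _).le)) (V.S.R s • a) (t * V.S.R s) (by
            intro ν hν
            have := ha.2 ν hν
            rw [map_smul, smul_eq_mul]
            nlinarith)
        have g9 : Kq * (|K| * Real.exp (-(t * V.S.R s))) * Real.exp (t * V.S.R s) =
            Kq * |K| := by
          rw [mul_assoc, mul_assoc, ← Real.exp_add, neg_add_cancel, Real.exp_zero, mul_one]
        rw [g9] at g8
        have g10 := mul_le_mul_of_nonneg_left g8 (by linarith [V.one_le_L] : (0 : ℝ) ≤ V.L)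
        exact add_le_add g10 le_rfl)
    have h2 := Pool.Agent.QSX.H68.cls3 Pool.Agent.QSX.H24.clg Pool.Agent.QSX.H28.lgm V.S X.b Y.m V.P
      ({a | ‖a‖ ≤ 1} ∩ {a | ∀ ν ∈ Ψ, -t ≤ hX.rt ν a})
      (fun s a => ((V.F (n s) s a).1 : Matrix (Fin Y.m) (Fin Y.m) ℝ)) (fun s _ => y s (n s))
      (fun s a => ((V.F (n' s) s a).1 : Matrix (Fin Y.m) (Fin Y.m) ℝ)) (fun s _ => y s (n' s))
      (hFsu n) (fun s _ => Y.su _ (hy s (n s))) (hFsu n') (fun s _ => Y.su _ (hy s (n' s)))
      (Pool.Agent.QSX.H68.Cls.mono (hcl n hn) Set.inter_subset_left) h1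
      (Pool.Agent.QSX.H68.Cls.mono (hcl n' hn') Set.inter_subset_left)
    have h3 : ∀ s, (ψ s (n s))⁻¹ * ψ s (n' s) = (ue (y s (n s)))⁻¹ * ue (y s (n' s)) := by
      intro s
      rw [← hy', ← hy']
    simp only [h3]
    exact h2
  · intro n n' hn hn' l z c t hc ht hz a ha hneg hcon
    have hsub : ({a} : Set X.b) ⊆ {a | ‖a‖ ≤ 1} := by
      intro b hb
      rw [Set.mem_singleton_iff] at hb
      rw [hb]
      exact ha
    have h3 : ∀ s, (ψ s (n s))⁻¹ * ψ s (n' s) = (ue (y s (n s)))⁻¹ * ue (y s (n' s)) := by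
      intro s
      rw [← hy', ← hy']
    simp only [h3] at hcon
    have hcon' : V.S.Cls V.P {a} (fun s (_ : X.b) =>
      (((ue (y s (n s)))⁻¹ * ue (y s (n' s)) : (Matrix (Fin Y.m) (Fin Y.m) ℝ)ˣ) :
        Matrix _ _ ℝ)) := hcon
    have hinv : ∀ k : ℕ → UX X, V.Good k → V.S.Cls V.P {a} (fun s b =>
        (((ue (y s (k s)))⁻¹ * ue ((V.F (k s) s b).1 : Matrix (Fin Y.m) (Fin Y.m) ℝ) :
          (Matrix (Fin Y.m) (Fin Y.m) ℝ)ˣ) : Matrix _ _ ℝ)) := by
      intro k hk
      have h1 := (Pool.Agent.QSX.H24.clg V.S X.b Y.m V.P {a}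
        (fun s b => (ue ((V.F (k s) s b).1 : Matrix (Fin Y.m) (Fin Y.m) ℝ))⁻¹ * ue (y s (k s)))
        (fun s b => (ue ((V.F (k s) s b).1 : Matrix (Fin Y.m) (Fin Y.m) ℝ))⁻¹ * ue (y s (k s)))
        (fun s b => Pool.Agent.QSX.H68.uu_diff Pool.Agent.QSX.H28.lgm (hFsu k s b)
          (Y.su _ (hy s (k s))))
        (fun s b => Pool.Agent.QSX.H68.uu_diff Pool.Agent.QSX.H28.lgm (hFsu k s b)
          (Y.su _ (hy s (k s))))
        (Pool.Agent.QSX.H68.Cls.mono (hcl k hk) hsub)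
        (Pool.Agent.QSX.H68.Cls.mono (hcl k hk) hsub)).2
      have h2 : ∀ s b, ((ue ((V.F (k s) s b).1 : Matrix (Fin Y.m) (Fin Y.m) ℝ))⁻¹ *
          ue (y s (k s)))⁻¹ = (ue (y s (k s)))⁻¹ *
          ue ((V.F (k s) s b).1 : Matrix (Fin Y.m) (Fin Y.m) ℝ) := by
        intro s b
        rw [_root_.mul_inv_rev, inv_inv]
      simp only [h2] at h1
      exact h1
    have hfl := Pool.Agent.QSX.H68.cls3 Pool.Agent.QSX.H24.clg Pool.Agent.QSX.H28.lgm V.S X.b Y.m
      V.P {a}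
      (fun s _ => y s (n s))
      (fun s b => ((V.F (n s) s b).1 : Matrix (Fin Y.m) (Fin Y.m) ℝ))
      (fun s _ => y s (n' s))
      (fun s b => ((V.F (n' s) s b).1 : Matrix (Fin Y.m) (Fin Y.m) ℝ))
      (fun s _ => Y.su _ (hy s (n s))) (hFsu n) (fun s _ => Y.su _ (hy s (n' s))) (hFsu n')
      (hinv n hn) hcon' (hinv n' hn')
    obtain ⟨k, C', hk, hclw⟩ := clq X hX
    obtain ⟨K, hK, henu⟩ := enup Y
    have hL := V.one_le_L
    have hLp : 0 < V.L := by linarith
    have hr : 0 < -t - hX.rt l a := by linarith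
    set r := -t - hX.rt l a with hrdef
    set ε := k * r / (2 * V.L * (1 + 5 * K)) with hεdef
    have hε : 0 < ε := by positivity
    have hev := (hfl ε hε).and (hn.and (hn'.and ((ev_del V ε hε).and (hz.and
      (V.S.ev_R ((K + V.C + (C' - k * Real.log c) / V.L + 1) / (k * r / (2 * V.L))))))))
    obtain ⟨s, h1, g1, g2, hd, ⟨g3, ⟨i0, j0, g4⟩, g5⟩, h5⟩ := hev.exists
    have hR := V.one_le s
    have hRp : 0 < V.S.R s := by linarith
    have hdR : V.δ s * V.S.R s ≤ ε * V.S.R s := mul_le_mul_of_nonneg_right hd hRp.le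
    have h2 := fun i => V.aff s (n s) g1 a ha i
    have h3' := fun i => V.aff s (n' s) g2 a ha i
    have h6 := henu (V.F (n s) s a) (V.F (n' s) s a) (3 * ε * V.S.R s) (2 * ε * V.S.R s)
      (by positivity) (by positivity) (by
        intro i
        have h7 := abs_le.mp (h2 i)
        have h8 := abs_le.mp (h3' i)
        rw [abs_le]
        constructor <;> linarith [h7.1, h7.2, h8.1, h8.2]) (by
        intro i j hij
        have h7 := abs_le.mp (h2 i)
        have h8 := abs_le.mp (h2 j)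
        refine (h1 a rfl i j hij).trans (Real.exp_le_exp.mpr ?_)
        have h12 : V.S.R s * (V.P a i - V.P a j + ε) =
            V.S.R s * V.P a i - V.S.R s * V.P a j + ε * V.S.R s := by ring
        rw [h12]
        linarith [h7.1, h7.2, h8.1, h8.2])
    have h7 := V.dn s (n s) g1 (n' s) g2 a ha
    have h9 : (n s)⁻¹ * n' s = ue (z s) := by rw [g5]; group
    rw [h9] at h7
    have hcpos : 0 < c * Real.exp (-(t * V.S.R s)) := by positivity
    have hzne : z s i0 j0 ≠ 0 := by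
      intro h0
      rw [h0, abs_zero] at g4
      linarith
    have h8 := hclw l (z s) g3 i0 j0 hzne (V.S.R s • a)
    rw [map_smul, smul_eq_mul] at h8
    have h10 : len ((ud (((V.S.R s • a : X.b)) : Fin X.m → ℝ))⁻¹ * ue (z s) *
        ud (((V.S.R s • a : X.b)) : Fin X.m → ℝ)) =
      len ((ud (V.S.R s • (a : Fin X.m → ℝ)))⁻¹ * ue (z s) *
        ud (V.S.R s • (a : Fin X.m → ℝ))) := rfl
    rw [h10] at h8
    have hlog : Real.log c - t * V.S.R s ≤ Real.log |z s i0 j0| := by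
      have := Real.log_le_log hcpos g4
      rw [Real.log_mul hc.ne' (Real.exp_pos _).ne', Real.log_exp] at this
      linarith
    have h12 : k * (Real.log c + V.S.R s * r) - C' ≤
        k * (Real.log |z s i0 j0| - V.S.R s * hX.rt l a) - C' := by
      have : Real.log c + V.S.R s * r ≤ Real.log |z s i0 j0| - V.S.R s * hX.rt l a := by
        rw [hrdef]; linarith
      have := mul_le_mul_of_nonneg_left this hk.le
      linarith
    have h11 := div_le_div_of_nonneg_right (h12.trans h8) hLp.le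
    have h13 : (k * (Real.log c + V.S.R s * r) - C') / V.L - V.C - ε * V.S.R s ≤
        K * (1 + 3 * ε * V.S.R s + 2 * ε * V.S.R s) := by linarith
    have h14 : (k * (Real.log c + V.S.R s * r) - C') / V.L =
        V.S.R s * (k * r / V.L) - (C' - k * Real.log c) / V.L := by
      field_simp
      ring
    rw [h14] at h13
    have h15 : ε * (1 + 5 * K) = k * r / (2 * V.L) := by
      rw [hεdef]; field_simp
    have h16 : k * r / V.L = 2 * (k * r / (2 * V.L)) := by field_simp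
    rw [h16] at h13
    have h17 : 0 < k * r / (2 * V.L) := by positivity
    rw [div_le_iff₀ h17] at h5
    nlinarith

end Pool.Agent.QSN.H34
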